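import Mathlib

/-!
Planar convex body without a centre all of whose central projections from antipodal points of
the unit circle have the same length: algebra of chords.
-/

namespace Pool.Agent.H42.K39

/-- Side of the point `(p,q)` with respect to the chord with ends of chart values `X`, `U`. -/
def bil (p q X U : ℝ) : ℝ := (1 - p) - q * (X + U) + (1 + p) * (X * U)

/-- First end of the `H` path. -/
noncomputable def hX (t : ℝ) : ℝ := -(110 * (1 + t) / 221)
/-- Second point of the `H` path. -/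
noncomputable def hu (t : ℝ) : ℝ := 110 * (-1 - 2 * t + 1 / t) / 663
/-- Third point of the `H` path. -/
noncomputable def hv (t : ℝ) : ℝ := 110 * (1 - t + 2 / t) / 663
/-- Last point of the `H` path. -/
noncomputable def hy (t : ℝ) : ℝ := 110 * (1 + 1 / t) / 221

/-- The conditions on the two bilinear forms. -/
def KP (f g : ℝ → ℝ → ℝ) : Prop :=
  (∀ x : ℝ, 10 / 11 ≤ x → x ≤ 11 / 10 →
    0 ≤ f (-x) (221 / 330 - x) ∧ 0 ≤ g (221 / 330 - x) (221 / 165 - x) ∧
      0 ≤ f (221 / 165 - x) (221 / 110 - x)) ∧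
  (∀ t : ℝ, 100 / 121 ≤ t → t ≤ 121 / 100 →
    0 ≤ g (hX t) (hu t) ∧ 0 ≤ f (hu t) (hv t) ∧ 0 ≤ g (hv t) (hy t))

/-- Membership in the body. -/
def KK (p q : ℝ) : Prop := KP (bil p q) (bil (-p) (-q))

/-- Membership in the negative of the body. -/
def NK (p q : ℝ) : Prop := KP (bil (-p) (-q)) (bil p q)

lemma nk_iff (p q : ℝ) : NK p q ↔ KK (-p) (-q) := by
  unfold NK KK
  rw [neg_neg, neg_neg]

/-! ### Ranges of the `H` path -/

lemma inv_rng {t : ℝ} (h1 : 100 / 121 ≤ t) (h2 : t ≤ 121 / 100) :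
    100 / 121 ≤ 1 / t ∧ 1 / t ≤ 121 / 100 := by
  have ht : 0 < t := by linarith
  constructor
  · rw [le_div_iff₀ ht]; linarith
  · rw [div_le_iff₀ ht]; linarith

lemma hX_rng {t : ℝ} (h1 : 100 / 121 ≤ t) (h2 : t ≤ 121 / 100) :
    -(11 / 10) ≤ hX t ∧ hX t ≤ -(10 / 11) := by
  unfold hX
  constructor <;> linarith

lemma hy_rng {t : ℝ} (h1 : 100 / 121 ≤ t) (h2 : t ≤ 121 / 100) :
    10 / 11 ≤ hy t ∧ hy t ≤ 11 / 10 := by
  obtain ⟨h3, h4⟩ := inv_rng h1 h2
  unfold hy
  constructor <;> linarith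

lemma hu_rng {t : ℝ} (h1 : 100 / 121 ≤ t) (h2 : t ≤ 121 / 100) :
    -(71 / 165) ≤ hu t ∧ hu t ≤ -(79 / 330) := by
  obtain ⟨h3, h4⟩ := inv_rng h1 h2
  unfold hu
  constructor <;> linarith

lemma hv_rng {t : ℝ} (h1 : 100 / 121 ≤ t) (h2 : t ≤ 121 / 100) :
    79 / 330 ≤ hv t ∧ hv t ≤ 71 / 165 := by
  obtain ⟨h3, h4⟩ := inv_rng h1 h2
  have e : (2 : ℝ) / t = 2 * (1 / t) := by ring
  unfold hv
  rw [e]
  constructor <;> linarith

/-! ### Reflection in the horizontal axis -/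

lemma bil_rho (p q X U : ℝ) : bil p (-q) X U = bil p q (-U) (-X) := by
  unfold bil; ring

lemma bil_symm (p q X U : ℝ) : bil p q X U = bil p q U X := by
  unfold bil; ring

lemma KP_rho {f g f' g' : ℝ → ℝ → ℝ} (hf : ∀ X U, f' X U = f (-U) (-X))
    (hg : ∀ X U, g' X U = g (-U) (-X)) (h : KP f g) : KP f' g' := by
  obtain ⟨h1, h2⟩ := h
  constructor
  · intro x hx1 hx2
    obtain ⟨a, b, c⟩ := h1 (221 / 110 - x) (by linarith) (by linarith)
    rw [hf, hg, hf]
    refine ⟨?_, ?_, ?_⟩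
    · have e1 : -(221 / 330 - x) = 221 / 165 - (221 / 110 - x) := by ring
      have e2 : - -x = 221 / 110 - (221 / 110 - x) := by ring
      rw [e1, e2]; exact c
    · have e1 : -(221 / 165 - x) = 221 / 330 - (221 / 110 - x) := by ring
      have e2 : -(221 / 330 - x) = 221 / 165 - (221 / 110 - x) := by ring
      rw [e1, e2]; exact b
    · have e1 : -(221 / 110 - x) = -(221 / 110 - x) := rfl
      have e2 : -(221 / 165 - x) = 221 / 330 - (221 / 110 - x) := by ring
      rw [e2]; exact a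
  · intro t ht1 ht2
    have ht : 0 < t := by linarith
    obtain ⟨h3, h4⟩ := inv_rng ht1 ht2
    obtain ⟨a, b, c⟩ := h2 (1 / t) h3 h4
    have e1 : -hX t = hy (1 / t) := by unfold hX hy; rw [one_div_one_div]; ring
    have e2 : -hu t = hv (1 / t) := by
      unfold hu hv; rw [show (2 : ℝ) / (1 / t) = 2 * t by field_simp]; ring
    have e3 : -hv t = hu (1 / t) := by
      unfold hu hv; rw [one_div_one_div]; ring
    have e4 : -hy t = hX (1 / t) := by unfold hX hy; ring
    rw [hf, hg, hg, e1, e2, e3, e4]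
    exact ⟨c, b, a⟩

lemma KK_rho {p q : ℝ} (h : KK p q) : KK p (-q) := by
  refine KP_rho (f := bil p q) (g := bil (-p) (-q)) ?_ ?_ h
  · intro X U; exact bil_rho p q X U
  · intro X U; exact bil_rho (-p) (-q) X U

lemma NK_rho {p q : ℝ} (h : NK p q) : NK p (-q) := by
  rw [nk_iff] at h ⊢
  exact KK_rho h

/-- Reflection in the vertical axis interchanges the two bodies. -/
lemma KK_kap {p q : ℝ} (h : NK p q) : KK (-p) q := by
  rw [nk_iff] at h
  have := KK_rho h
  rwa [neg_neg] at this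

lemma NK_kap {p q : ℝ} (h : KK p q) : NK (-p) q := by
  rw [nk_iff, neg_neg]
  exact KK_rho h

/-! ### Touching points -/

/-- First coordinate of the touching point on the chord `(X,U)` with weights `a`, `b`. -/
noncomputable def tp (a b X U : ℝ) : ℝ :=
  (a * (1 - U ^ 2) + b * (1 - X ^ 2)) / (a * (1 + U ^ 2) + b * (1 + X ^ 2))

/-- Second coordinate of the touching point. -/
noncomputable def tq (a b X U : ℝ) : ℝ :=
  2 * (a * U + b * X) / (a * (1 + U ^ 2) + b * (1 + X ^ 2))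

lemma tN_pos {a b : ℝ} (ha : 0 < a) (hb : 0 < b) (X U : ℝ) :
    0 < a * (1 + U ^ 2) + b * (1 + X ^ 2) := by positivity

lemma tbil {a b : ℝ} (ha : 0 < a) (hb : 0 < b) (X U X' U' : ℝ) :
    bil (tp a b X U) (tq a b X U) X' U' =
      2 / (a * (1 + U ^ 2) + b * (1 + X ^ 2)) *
        (a * ((X' - U) * (U' - U)) + b * ((X' - X) * (U' - X))) := by
  have hN := (tN_pos ha hb X U).ne'
  unfold bil tp tq
  field_simp
  ring

lemma tneg {a b : ℝ} (ha : 0 < a) (hb : 0 < b) (X U X' U' : ℝ) :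
    bil (-tp a b X U) (-tq a b X U) X' U' =
      2 / (a * (1 + U ^ 2) + b * (1 + X ^ 2)) *
        (a * ((1 + U * X') * (1 + U * U')) + b * ((1 + X * X') * (1 + X * U'))) := by
  have hN := (tN_pos ha hb X U).ne'
  unfold bil tp tq
  field_simp
  ring

lemma tbil_nonneg {a b : ℝ} (ha : 0 < a) (hb : 0 < b) {X U X' U' : ℝ}
    (h : 0 ≤ a * ((X' - U) * (U' - U)) + b * ((X' - X) * (U' - X))) :
    0 ≤ bil (tp a b X U) (tq a b X U) X' U' := by
  rw [tbil ha hb]
  have := tN_pos ha hb X U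
  positivity

lemma tneg_nonneg {a b : ℝ} (ha : 0 < a) (hb : 0 < b) {X U X' U' : ℝ}
    (h : 0 ≤ a * ((1 + U * X') * (1 + U * U')) + b * ((1 + X * X') * (1 + X * U'))) :
    0 ≤ bil (-tp a b X U) (-tq a b X U) X' U' := by
  rw [tneg ha hb]
  have := tN_pos ha hb X U
  positivity

lemma tbil_zero {a b : ℝ} (ha : 0 < a) (hb : 0 < b) (X U : ℝ) :
    bil (tp a b X U) (tq a b X U) X U = 0 := by
  rw [tbil ha hb]; ring

end Pool.Agent.H42.K39
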