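import Pool.Agent.H42.K39.Range

open Set

namespace Pool.Agent.H42.K39

/-- The central projection of `(p,q)` from the unit vector `(a,b)` (signed length). -/
noncomputable def FE (a b p q : ℝ) : ℝ := (-b * p + a * q) / (1 - (a * p + b * q))

/-- Largest value. -/
def TopE (S : ℝ → ℝ → Prop) (a b h : ℝ) : Prop :=
  (∀ p q, S p q → FE a b p q ≤ h) ∧ ∃ p q, S p q ∧ FE a b p q = h

/-- Smallest value. -/
def BotE (S : ℝ → ℝ → Prop) (a b l : ℝ) : Prop :=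
  (∀ p q, S p q → l ≤ FE a b p q) ∧ ∃ p q, S p q ∧ FE a b p q = l

/-- Equal lengths from `(a,b)` for the body and its negative. -/
def WE (a b : ℝ) : Prop :=
  ∃ lo hi lo' hi' : ℝ, hi - lo = hi' - lo' ∧ BotE KK a b lo ∧ TopE KK a b hi ∧
      BotE NK a b lo' ∧ TopE NK a b hi'

lemma FE_eq {a b : ℝ} (h : a ^ 2 + b ^ 2 = 1) (ha : 0 ≤ a) (p q : ℝ) :
    FE a b p q = F p q (b / (1 + a)) := by
  have h1 : 0 < 1 + a := by linarith
  obtain ⟨X, hX⟩ : ∃ X : ℝ, X = b / (1 + a) := ⟨_, rfl⟩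
  have hb : b = X * (1 + a) := by rw [hX]; field_simp
  have hX2 : X ^ 2 * (1 + a) = 1 - a := by
    have : X ^ 2 * (1 + a) * (1 + a) = (1 - a) * (1 + a) := by
      calc X ^ 2 * (1 + a) * (1 + a) = (X * (1 + a)) ^ 2 := by ring
        _ = b ^ 2 := by rw [← hb]
        _ = (1 - a) * (1 + a) := by linarith
    exact mul_right_cancel₀ h1.ne' this
  rw [← hX]
  have e1 : (1 + a) * NF p q X = 2 * (-b * p + a * q) := by
    unfold NF
    linear_combination (-q) * hX2 + 2 * p * hb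
  have e2 : (1 + a) * QF p q X = 2 * (1 - (a * p + b * q)) := by
    unfold QF
    linear_combination (1 + p) * hX2 + 2 * q * hb
  unfold FE F
  rw [← mul_div_mul_left (NF p q X) (QF p q X) h1.ne', e1, e2,
    mul_div_mul_left _ _ (two_ne_zero)]

lemma WE_base {a b : ℝ} (h : a ^ 2 + b ^ 2 = 1) (ha : 0 ≤ a) (hb : b ≤ 0) : WE a b := by
  have h1 : 0 < 1 + a := by linarith
  have X1 : -1 ≤ b / (1 + a) := by
    rw [le_div_iff₀ h1]; nlinarith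
  have X2 : b / (1 + a) ≤ 0 := div_nonpos_of_nonpos_of_nonneg hb h1.le
  obtain ⟨lo, hi, lo', hi', e, ⟨b1, b2, b3, b4, b5⟩, ⟨c1, c2, c3, c4, c5⟩,
    ⟨d1, d2, d3, d4, d5⟩, ⟨f1, f2, f3, f4, f5⟩⟩ := main_interval X1 X2
  refine ⟨lo, hi, lo', hi', e, ⟨?_, b2, b3, b4, ?_⟩, ⟨?_, c2, c3, c4, ?_⟩,
    ⟨?_, d2, d3, d4, ?_⟩, ⟨?_, f2, f3, f4, ?_⟩⟩
  · intro p q hpq; rw [FE_eq h ha]; exact b1 p q hpq
  · rw [FE_eq h ha]; exact b5
  · intro p q hpq; rw [FE_eq h ha]; exact c1 p q hpq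
  · rw [FE_eq h ha]; exact c5
  · intro p q hpq; rw [FE_eq h ha]; exact d1 p q hpq
  · rw [FE_eq h ha]; exact d5
  · intro p q hpq; rw [FE_eq h ha]; exact f1 p q hpq
  · rw [FE_eq h ha]; exact f5

lemma FE_rho (a b p q : ℝ) : FE a (-b) p q = -FE a b p (-q) := by
  unfold FE; rw [← neg_div]; congr 1 <;> ring

lemma FE_neg (a b p q : ℝ) : FE (-a) (-b) p q = FE a b (-p) (-q) := by
  unfold FE; congr 1 <;> ring

lemma WE_rho {a b : ℝ} (h : WE a b) : WE a (-b) := by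
  obtain ⟨lo, hi, lo', hi', e, ⟨b1, b2, b3, b4, b5⟩, ⟨c1, c2, c3, c4, c5⟩,
    ⟨d1, d2, d3, d4, d5⟩, ⟨f1, f2, f3, f4, f5⟩⟩ := h
  refine ⟨-hi, -lo, -hi', -lo', by linarith, ⟨?_, c2, -c3, KK_rho c4, ?_⟩,
    ⟨?_, b2, -b3, KK_rho b4, ?_⟩, ⟨?_, f2, -f3, NK_rho f4, ?_⟩, ⟨?_, d2, -d3, NK_rho d4, ?_⟩⟩
  · intro p q hpq; rw [FE_rho]; exact neg_le_neg (c1 _ _ (KK_rho hpq))
  · rw [FE_rho, neg_neg, c5]
  · intro p q hpq; rw [FE_rho]; exact neg_le_neg (b1 _ _ (KK_rho hpq))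
  · rw [FE_rho, neg_neg, b5]
  · intro p q hpq; rw [FE_rho]; exact neg_le_neg (f1 _ _ (NK_rho hpq))
  · rw [FE_rho, neg_neg, f5]
  · intro p q hpq; rw [FE_rho]; exact neg_le_neg (d1 _ _ (NK_rho hpq))
  · rw [FE_rho, neg_neg, d5]

lemma KK_of_NK {p q : ℝ} (h : NK p q) : KK (-p) (-q) := (nk_iff p q).1 h
lemma NK_of_KK {p q : ℝ} (h : KK p q) : NK (-p) (-q) := by
  rw [nk_iff, neg_neg, neg_neg]; exact h

lemma WE_neg {a b : ℝ} (h : WE a b) : WE (-a) (-b) := by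
  obtain ⟨lo, hi, lo', hi', e, ⟨b1, b2, b3, b4, b5⟩, ⟨c1, c2, c3, c4, c5⟩,
    ⟨d1, d2, d3, d4, d5⟩, ⟨f1, f2, f3, f4, f5⟩⟩ := h
  refine ⟨lo', hi', lo, hi, by linarith, ⟨?_, -d2, -d3, KK_of_NK d4, ?_⟩,
    ⟨?_, -f2, -f3, KK_of_NK f4, ?_⟩, ⟨?_, -b2, -b3, NK_of_KK b4, ?_⟩,
    ⟨?_, -c2, -c3, NK_of_KK c4, ?_⟩⟩
  · intro p q hpq; rw [FE_neg]; exact d1 _ _ (NK_of_KK hpq)
  · rw [FE_neg, neg_neg, neg_neg, d5]
  · intro p q hpq; rw [FE_neg]; exact f1 _ _ (NK_of_KK hpq)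
  · rw [FE_neg, neg_neg, neg_neg, f5]
  · intro p q hpq; rw [FE_neg]; exact b1 _ _ (KK_of_NK hpq)
  · rw [FE_neg, neg_neg, neg_neg, b5]
  · intro p q hpq; rw [FE_neg]; exact c1 _ _ (KK_of_NK hpq)
  · rw [FE_neg, neg_neg, neg_neg, c5]

/-- Equal lengths from every unit vector. -/
theorem WE_all {a b : ℝ} (h : a ^ 2 + b ^ 2 = 1) : WE a b := by
  have key : ∀ a b : ℝ, a ^ 2 + b ^ 2 = 1 → 0 ≤ a → WE a b := by
    intro a b h ha
    rcases le_total b 0 with hb | hb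
    · exact WE_base h ha hb
    · have := WE_rho (WE_base (a := a) (b := -b) (by linarith [neg_sq b]) ha (by linarith))
      rwa [neg_neg] at this
  rcases le_total 0 a with ha | ha
  · exact key a b h ha
  · have := WE_neg (key (-a) (-b) (by linarith [neg_sq b, neg_sq a]) (by linarith))
    rwa [neg_neg, neg_neg] at this

/-! ### Convexity, closedness, interior -/

lemma KK_convex {p q p' q' a b : ℝ} (h : KK p q) (h' : KK p' q') (ha : 0 ≤ a) (hb : 0 ≤ b)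
    (hab : a + b = 1) : KK (a * p + b * p') (a * q + b * q') := by
  have e1 : ∀ X U, bil (a * p + b * p') (a * q + b * q') X U =
      a * bil p q X U + b * bil p' q' X U := by
    intro X U; unfold bil
    linear_combination (1 + X * U) * (-hab)
  have e2 : ∀ X U, bil (-(a * p + b * p')) (-(a * q + b * q')) X U =
      a * bil (-p) (-q) X U + b * bil (-p') (-q') X U := by
    intro X U; unfold bil
    linear_combination (1 + X * U) * (-hab)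
  obtain ⟨h1, h2⟩ := h
  obtain ⟨h1', h2'⟩ := h'
  constructor
  · intro x hx1 hx2
    obtain ⟨u1, u2, u3⟩ := h1 x hx1 hx2
    obtain ⟨w1, w2, w3⟩ := h1' x hx1 hx2
    rw [e1, e1, e2]
    exact ⟨by positivity, by positivity, by positivity⟩
  · intro x hx1 hx2
    obtain ⟨u1, u2, u3⟩ := h2 x hx1 hx2
    obtain ⟨w1, w2, w3⟩ := h2' x hx1 hx2
    rw [e1, e2, e2]
    exact ⟨by positivity, by positivity, by positivity⟩

lemma bil_small {p q X U : ℝ} (hp : |p| ≤ 1 / 10) (hq : |q| ≤ 1 / 10)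
    (h1 : -(1 / 5) ≤ X * U) (h2 : X * U ≤ 1) (h3 : |X + U| ≤ 2) : 0 ≤ bil p q X U := by
  unfold bil
  have e1 : q * (X + U) ≤ 1 / 10 * 2 := by
    calc q * (X + U) ≤ |q * (X + U)| := le_abs_self _
      _ = |q| * |X + U| := abs_mul _ _
      _ ≤ 1 / 10 * 2 := mul_le_mul hq h3 (abs_nonneg _) (by norm_num)
  have e2 : p * (1 - X * U) ≤ 1 / 10 * (6 / 5) := by
    calc p * (1 - X * U) ≤ |p * (1 - X * U)| := le_abs_self _
      _ = |p| * |1 - X * U| := abs_mul _ _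
      _ ≤ 1 / 10 * (6 / 5) := by
        apply mul_le_mul hp _ (abs_nonneg _) (by norm_num)
        rw [abs_le]; constructor <;> linarith
  nlinarith

lemma KK_small {p q : ℝ} (hp : |p| ≤ 1 / 10) (hq : |q| ≤ 1 / 10) : KK p q := by
  have hp' : |-p| ≤ 1 / 10 := by rwa [abs_neg]
  have hq' : |-q| ≤ 1 / 10 := by rwa [abs_neg]
  have r0 : ∀ X U : ℝ, -(11 / 10) ≤ X → X ≤ -(10 / 11) → -(71 / 165) ≤ U →
      U ≤ -(79 / 330) → (-(1 / 5) ≤ X * U ∧ X * U ≤ 1 ∧ |X + U| ≤ 2) := by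
    intro X U h1 h2 h3 h4
    refine ⟨by nlinarith, by nlinarith, ?_⟩
    rw [abs_le]; constructor <;> linarith
  have r1 : ∀ X U : ℝ, -(71 / 165) ≤ X → X ≤ -(79 / 330) → 79 / 330 ≤ U →
      U ≤ 71 / 165 → (-(1 / 5) ≤ X * U ∧ X * U ≤ 1 ∧ |X + U| ≤ 2) := by
    intro X U h1 h2 h3 h4
    refine ⟨by nlinarith, by nlinarith, ?_⟩
    rw [abs_le]; constructor <;> linarith
  have r2 : ∀ X U : ℝ, 79 / 330 ≤ X → X ≤ 71 / 165 → 10 / 11 ≤ U →
      U ≤ 11 / 10 → (-(1 / 5) ≤ X * U ∧ X * U ≤ 1 ∧ |X + U| ≤ 2) := by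
    intro X U h1 h2 h3 h4
    refine ⟨by nlinarith, by nlinarith, ?_⟩
    rw [abs_le]; constructor <;> linarith
  constructor
  · intro x h1 h2
    obtain ⟨a1, a2, a3⟩ := r0 (-x) (221 / 330 - x) (by linarith) (by linarith) (by linarith)
      (by linarith)
    obtain ⟨b1, b2, b3⟩ := r1 (221 / 330 - x) (221 / 165 - x) (by linarith) (by linarith)
      (by linarith) (by linarith)
    obtain ⟨c1, c2, c3⟩ := r2 (221 / 165 - x) (221 / 110 - x) (by linarith) (by linarith)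
      (by linarith) (by linarith)
    exact ⟨bil_small hp hq a1 a2 a3, bil_small hp' hq' b1 b2 b3, bil_small hp hq c1 c2 c3⟩
  · intro t h1 h2
    obtain ⟨u1, u2⟩ := hX_rng h1 h2
    obtain ⟨u3, u4⟩ := hu_rng h1 h2
    obtain ⟨u5, u6⟩ := hv_rng h1 h2
    obtain ⟨u7, u8⟩ := hy_rng h1 h2
    obtain ⟨a1, a2, a3⟩ := r0 _ _ u1 u2 u3 u4
    obtain ⟨b1, b2, b3⟩ := r1 _ _ u3 u4 u5 u6
    obtain ⟨c1, c2, c3⟩ := r2 _ _ u5 u6 u7 u8
    exact ⟨bil_small hp' hq' a1 a2 a3, bil_small hp hq b1 b2 b3, bil_small hp' hq' c1 c2 c3⟩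

/-! ### No centre -/

/-- The body has no centre of symmetry. -/
theorem no_centre (c d : ℝ) (h : ∀ p q, KK p q ↔ KK (2 * c - p) (2 * d - q)) : False := by
  have h1 := (h _ _).1 P0_KK
  have h2 := (h _ _).1 (KK_of_NK P0_NK)
  have a1 := (KK_six h1).2
  have a2 := (KK_six h2).1
  have hc : c = 0 ∧ d = 0 := by
    obtain ⟨_, s1, s2, _⟩ := a1
    obtain ⟨_, t1, t2, _⟩ := a2
    unfold bil p0 q0 at s1 s2 t1 t2
    constructor <;> linarith
  obtain ⟨rfl, rfl⟩ := hc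
  have hs : ∀ p q, KK p q ↔ NK p q := by
    intro p q
    rw [nk_iff, h p q]
    norm_num
  obtain ⟨k1, p, q, k2, k3⟩ := top_K_I0 (X := -1) (by norm_num) (by norm_num)
  obtain ⟨n1, p', q', n2, n3⟩ := top_N_I0 (X := -1) (by norm_num) (by norm_num)
  have := k1 _ _ ((hs _ _).2 n2)
  rw [n3] at this
  norm_num at this

end Pool.Agent.H42.K39
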