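import Pool.Agent.H42.K39.Core

namespace Pool.Agent.H42.K39

/-- A bilinear form which is nonnegative at the vertices of a rectangle is nonnegative on it. -/
lemma rect {p q a b c e X U : ℝ} (hab : a < b) (hce : c < e)
    (h1 : 0 ≤ bil p q a c) (h2 : 0 ≤ bil p q a e) (h3 : 0 ≤ bil p q b c) (h4 : 0 ≤ bil p q b e)
    (hX1 : a ≤ X) (hX2 : X ≤ b) (hU1 : c ≤ U) (hU2 : U ≤ e) : 0 ≤ bil p q X U := by
  have key : (b - a) * (e - c) * bil p q X U =
      (b - X) * (e - U) * bil p q a c + (b - X) * (U - c) * bil p q a e +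
      (X - a) * (e - U) * bil p q b c + (X - a) * (U - c) * bil p q b e := by
    unfold bil; ring
  have hpos : 0 < (b - a) * (e - c) := mul_pos (by linarith) (by linarith)
  have : 0 ≤ (b - a) * (e - c) * bil p q X U := by
    rw [key]
    have e1 := mul_nonneg (mul_nonneg (sub_nonneg.2 hX2) (sub_nonneg.2 hU2)) h1
    have e2 := mul_nonneg (mul_nonneg (sub_nonneg.2 hX2) (sub_nonneg.2 hU1)) h2
    have e3 := mul_nonneg (mul_nonneg (sub_nonneg.2 hX1) (sub_nonneg.2 hU2)) h3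
    have e4 := mul_nonneg (mul_nonneg (sub_nonneg.2 hX1) (sub_nonneg.2 hU1)) h4
    linarith
  exact (mul_nonneg_iff_of_pos_left hpos).mp this

/-- The vertex `P0`, first coordinate. -/
noncomputable def p0 : ℝ := 181441 / 254159
/-- The vertex `P0`, second coordinate. -/
noncomputable def q0 : ℝ := -(145860 / 254159)
/-- The vertex `P5` is `(0, q5)`. -/
noncomputable def q5 : ℝ := -(2431 / 2525)

lemma P0_J0G {x : ℝ} (h1 : 10 / 11 ≤ x) : 0 ≤ bil p0 q0 (-x) (221 / 330 - x) := by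
  have key : bil p0 q0 (-x) (221 / 330 - x) =
      435600 / 254159 * ((x - 10 / 11) * (x - 71 / 165)) := by
    unfold bil p0 q0; ring
  rw [key]
  have := mul_nonneg (a := x - 10 / 11) (b := x - 71 / 165) (by linarith) (by linarith)
  linarith

lemma P0_J1G {x : ℝ} (h2 : x ≤ 11 / 10) :
    0 ≤ bil p0 q0 (221 / 330 - x) (221 / 165 - x) := by
  have key : bil p0 q0 (221 / 330 - x) (221 / 165 - x) =
      435600 / 254159 * ((11 / 10 - x) * (521 / 330 - x)) := by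
    unfold bil p0 q0; ring
  rw [key]
  have := mul_nonneg (a := 11 / 10 - x) (b := 521 / 330 - x) (by linarith) (by linarith)
  linarith

lemma P5_J0G {x : ℝ} (h2 : x ≤ 11 / 10) : 0 ≤ bil 0 q5 (-x) (221 / 330 - x) := by
  have key : bil 0 q5 (-x) (221 / 330 - x) = (11 / 10 - x) * (124591 / 83325 - x) := by
    unfold bil q5; ring
  rw [key]
  exact mul_nonneg (by linarith) (by linarith)

lemma P0_J0H {t : ℝ} (h1 : 100 / 121 ≤ t) :
    0 ≤ bil p0 q0 (hX t) (hu t) := by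
  have ht : 0 < t := by linarith
  have key : bil p0 q0 (hX t) (hu t) = (110 / 663) ^ 2 * ((t - 100 / 121) *
      (1684710 / 254159 + 2613600 / 254159 * t + 25873551 / 12707950 * (1 / t))) := by
    unfold bil p0 q0 hX hu
    field_simp
    ring
  rw [key]
  have : 0 ≤ t - 100 / 121 := by linarith
  positivity

lemma P0_J1H {t : ℝ} (h1 : 100 / 121 ≤ t) (h2 : t ≤ 121 / 100) :
    0 ≤ bil p0 q0 (hu t) (hv t) := by
  have ht : 0 < t := by linarith
  have key : bil p0 q0 (hu t) (hv t) = (110 / 663) ^ 2 * ((121 / 100 - t) *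
      (2018862 / 254159 - 871200 / 254159 * t + 292181400 / 30753239 * (1 / t) +
        720000 / 254159 * (1 / t) ^ 2)) := by
    unfold bil p0 q0 hu hv
    field_simp
    ring
  rw [key]
  have e1 : 0 ≤ 121 / 100 - t := by linarith
  have e2 : 0 ≤ 2018862 / 254159 - 871200 / 254159 * t + 292181400 / 30753239 * (1 / t) +
        720000 / 254159 * (1 / t) ^ 2 := by
    have a1 : 0 ≤ 1 / t := by positivity
    have a2 : 0 ≤ (1 / t) ^ 2 := by positivity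
    have a3 : 0 ≤ 2018862 / 254159 - 871200 / 254159 * t := by linarith
    positivity
  positivity

lemma P5_J0H {t : ℝ} (h1 : 100 / 121 ≤ t) (h2 : t ≤ 121 / 100) :
    0 ≤ bil 0 q5 (hX t) (hu t) := by
  have ht : 0 < t := by linarith
  have key : bil 0 q5 (hX t) (hu t) = (110 / 663) ^ 2 * ((121 / 100 - t) *
      (6441 / 505 - 6 * t + 141546 / 61105 * (1 / t))) := by
    unfold bil q5 hX hu
    field_simp
    ring
  rw [key]
  have e1 : 0 ≤ 121 / 100 - t := by linarith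
  have e2 : 0 ≤ 6441 / 505 - 6 * t + 141546 / 61105 * (1 / t) := by
    have a1 : 0 ≤ 1 / t := by positivity
    have a3 : 0 ≤ 6441 / 505 - 6 * t := by linarith
    positivity
  positivity

lemma P0_R2 {X U : ℝ} (h1 : 79 / 330 ≤ X) (h2 : X ≤ 71 / 165) (h3 : 10 / 11 ≤ U)
    (h4 : U ≤ 11 / 10) : 0 ≤ bil p0 q0 X U := by
  apply rect (a := 79 / 330) (b := 71 / 165) (c := 10 / 11) (e := 11 / 10) (by norm_num)
    (by norm_num) _ _ _ _ h1 h2 h3 h4 <;> (unfold bil p0 q0; norm_num)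

lemma P0_N0 {X U : ℝ} (h1 : -(11 / 10) ≤ X) (h2 : X ≤ -(10 / 11)) (h3 : -(71 / 165) ≤ U)
    (h4 : U ≤ -(79 / 330)) : 0 ≤ bil (-p0) (-q0) X U := by
  apply rect (a := -(11 / 10)) (b := -(10 / 11)) (c := -(71 / 165)) (e := -(79 / 330))
    (by norm_num)
    (by norm_num) _ _ _ _ h1 h2 h3 h4 <;> (unfold bil p0 q0; norm_num)

lemma P0_N1 {X U : ℝ} (h1 : -(71 / 165) ≤ X) (h2 : X ≤ -(79 / 330)) (h3 : 79 / 330 ≤ U)
    (h4 : U ≤ 71 / 165) : 0 ≤ bil (-p0) (-q0) X U := by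
  apply rect (a := -(71 / 165)) (b := -(79 / 330)) (c := 79 / 330) (e := 71 / 165)
    (by norm_num)
    (by norm_num) _ _ _ _ h1 h2 h3 h4 <;> (unfold bil p0 q0; norm_num)

lemma P0_N2 {X U : ℝ} (h1 : 79 / 330 ≤ X) (h2 : X ≤ 71 / 165) (h3 : 10 / 11 ≤ U)
    (h4 : U ≤ 11 / 10) : 0 ≤ bil (-p0) (-q0) X U := by
  apply rect (a := 79 / 330) (b := 71 / 165) (c := 10 / 11) (e := 11 / 10) (by norm_num)
    (by norm_num) _ _ _ _ h1 h2 h3 h4 <;> (unfold bil p0 q0; norm_num)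

lemma P5_R1 {X U : ℝ} (h1 : -(71 / 165) ≤ X) (h2 : X ≤ -(79 / 330)) (h3 : 79 / 330 ≤ U)
    (h4 : U ≤ 71 / 165) : 0 ≤ bil 0 q5 X U := by
  apply rect (a := -(71 / 165)) (b := -(79 / 330)) (c := 79 / 330) (e := 71 / 165)
    (by norm_num)
    (by norm_num) _ _ _ _ h1 h2 h3 h4 <;> (unfold bil q5; norm_num)

lemma P5_R2 {X U : ℝ} (h1 : 79 / 330 ≤ X) (h2 : X ≤ 71 / 165) (h3 : 10 / 11 ≤ U)
    (h4 : U ≤ 11 / 10) : 0 ≤ bil 0 q5 X U := by
  apply rect (a := 79 / 330) (b := 71 / 165) (c := 10 / 11) (e := 11 / 10) (by norm_num)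
    (by norm_num) _ _ _ _ h1 h2 h3 h4 <;> (unfold bil q5; norm_num)

lemma P5_N0 {X U : ℝ} (h1 : -(11 / 10) ≤ X) (h2 : X ≤ -(10 / 11)) (h3 : -(71 / 165) ≤ U)
    (h4 : U ≤ -(79 / 330)) : 0 ≤ bil (-0) (-q5) X U := by
  rw [neg_zero, bil_rho]
  exact P5_R2 (by linarith) (by linarith) (by linarith) (by linarith)

lemma P5_N1 {X U : ℝ} (h1 : -(71 / 165) ≤ X) (h2 : X ≤ -(79 / 330)) (h3 : 79 / 330 ≤ U)
    (h4 : U ≤ 71 / 165) : 0 ≤ bil (-0) (-q5) X U := by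
  rw [neg_zero, bil_rho]
  exact P5_R1 (by linarith) (by linarith) (by linarith) (by linarith)

lemma P5_J2G {x : ℝ} (h1 : 10 / 11 ≤ x) :
    0 ≤ bil (-0) (-q5) (221 / 165 - x) (221 / 110 - x) := by
  rw [neg_zero, bil_rho]
  have := P5_J0G (x := 221 / 110 - x) (by linarith)
  have e : -(221 / 165 - x) = 221 / 330 - (221 / 110 - x) := by ring
  rw [e]
  exact this

lemma P5_J2H {t : ℝ} (h1 : 100 / 121 ≤ t) (h2 : t ≤ 121 / 100) :
    0 ≤ bil (-0) (-q5) (hv t) (hy t) := by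
  rw [neg_zero, bil_rho]
  obtain ⟨h3, h4⟩ := inv_rng h1 h2
  have := P5_J0H h3 h4
  have ht : 0 < t := by linarith
  have e3 : -hv t = hu (1 / t) := by
      unfold hu hv; rw [one_div_one_div]; ring
  have e4 : -hy t = hX (1 / t) := by unfold hX hy; ring
  rw [e3, e4]
  exact this

lemma P0_KK : KK p0 q0 := by
  constructor
  · intro x h1 h2
    exact ⟨P0_J0G h1, P0_N1 (by linarith) (by linarith) (by linarith) (by linarith),
      P0_R2 (by linarith) (by linarith) (by linarith) (by linarith)⟩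
  · intro t ht1 ht2
    obtain ⟨a1, a2⟩ := hX_rng ht1 ht2
    obtain ⟨b1, b2⟩ := hu_rng ht1 ht2
    obtain ⟨c1, c2⟩ := hv_rng ht1 ht2
    obtain ⟨d1, d2⟩ := hy_rng ht1 ht2
    exact ⟨P0_N0 a1 a2 b1 b2, P0_J1H ht1 ht2, P0_N2 c1 c2 d1 d2⟩

lemma P0_NK : NK p0 q0 := by
  constructor
  · intro x h1 h2
    exact ⟨P0_N0 (by linarith) (by linarith) (by linarith) (by linarith), P0_J1G h2,
      P0_N2 (by linarith) (by linarith) (by linarith) (by linarith)⟩
  · intro t ht1 ht2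
    obtain ⟨a1, a2⟩ := hX_rng ht1 ht2
    obtain ⟨b1, b2⟩ := hu_rng ht1 ht2
    obtain ⟨c1, c2⟩ := hv_rng ht1 ht2
    obtain ⟨d1, d2⟩ := hy_rng ht1 ht2
    exact ⟨P0_J0H ht1, P0_N1 b1 b2 c1 c2, P0_R2 c1 c2 d1 d2⟩

lemma P5_KK : KK 0 q5 := by
  constructor
  · intro x h1 h2
    exact ⟨P5_J0G h2, P5_N1 (by linarith) (by linarith) (by linarith) (by linarith),
      P5_R2 (by linarith) (by linarith) (by linarith) (by linarith)⟩
  · intro t ht1 ht2
    obtain ⟨a1, a2⟩ := hX_rng ht1 ht2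
    obtain ⟨b1, b2⟩ := hu_rng ht1 ht2
    obtain ⟨c1, c2⟩ := hv_rng ht1 ht2
    obtain ⟨d1, d2⟩ := hy_rng ht1 ht2
    exact ⟨P5_N0 a1 a2 b1 b2, P5_R1 b1 b2 c1 c2, P5_J2H ht1 ht2⟩

lemma P5_NK : NK 0 q5 := by
  constructor
  · intro x h1 h2
    exact ⟨P5_N0 (by linarith) (by linarith) (by linarith) (by linarith),
      P5_R1 (by linarith) (by linarith) (by linarith) (by linarith), P5_J2G h1⟩
  · intro t ht1 ht2
    obtain ⟨a1, a2⟩ := hX_rng ht1 ht2
    obtain ⟨b1, b2⟩ := hu_rng ht1 ht2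
    obtain ⟨c1, c2⟩ := hv_rng ht1 ht2
    obtain ⟨d1, d2⟩ := hy_rng ht1 ht2
    exact ⟨P5_J0H ht1 ht2, P5_N1 b1 b2 c1 c2, P5_R2 c1 c2 d1 d2⟩

end Pool.Agent.H42.K39
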