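import Pool.Agent.H42.K39.Touch
import Pool.Agent.H42.K39.Points

namespace Pool.Agent.H42.K39

/-- The numerator of the central projection. -/
def NF (p q X : ℝ) : ℝ := q * (1 - X ^ 2) - 2 * p * X
/-- The denominator of the central projection. -/
def QF (p q X : ℝ) : ℝ := (1 - p) - 2 * q * X + (1 + p) * X ^ 2
/-- The central projection of `(p,q)` from the point of the unit circle of chart value `X`. -/
noncomputable def F (p q X : ℝ) : ℝ := NF p q X / QF p q X

/-- The twelve (six pairs) common conditions. -/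
def Six (f : ℝ → ℝ → ℝ) : Prop :=
  0 ≤ f (-(11 / 10)) (-(71 / 165)) ∧ 0 ≤ f (-(10 / 11)) (-(79 / 330)) ∧
  0 ≤ f (-(71 / 165)) (79 / 330) ∧ 0 ≤ f (-(79 / 330)) (71 / 165) ∧
  0 ≤ f (79 / 330) (10 / 11) ∧ 0 ≤ f (71 / 165) (11 / 10)

lemma KP_six {f g : ℝ → ℝ → ℝ} (h : KP f g) : Six f ∧ Six g := by
  obtain ⟨h1, h2⟩ := h
  obtain ⟨a1, a2, a3⟩ := h1 (11 / 10) (by norm_num) (by norm_num)
  obtain ⟨b1, b2, b3⟩ := h1 (10 / 11) (by norm_num) (by norm_num)
  obtain ⟨c1, c2, c3⟩ := h2 (121 / 100) (by norm_num) (by norm_num)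
  obtain ⟨d1, d2, d3⟩ := h2 (100 / 121) (by norm_num) (by norm_num)
  unfold hX hu hv hy at *
  norm_num at a1 a2 a3 b1 b2 b3 c1 c2 c3 d1 d2 d3
  unfold Six
  refine ⟨⟨?_, ?_, ?_, ?_, ?_, ?_⟩, ?_, ?_, ?_, ?_, ?_, ?_⟩ <;> norm_num <;> assumption

lemma KK_six {p q : ℝ} (h : KK p q) : Six (bil p q) ∧ Six (bil (-p) (-q)) := KP_six h

lemma NK_six {p q : ℝ} (h : NK p q) : Six (bil p q) ∧ Six (bil (-p) (-q)) :=
  (KP_six h).symm

/-! ### The body lies in the open disc -/

lemma disc_aux {p q n X a b : ℝ} (hn : 1 ≤ n) (hp : p * (1 + X ^ 2) = n * (1 - X ^ 2))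
    (hq : q * (1 + X ^ 2) = 2 * n * X) (ha : a < X) (hb : X < b) (hab : 0 < 1 + a * b)
    (h : 0 ≤ bil p q a b) : False := by
  have h1 : 0 ≤ (1 + X ^ 2) * bil p q a b := by positivity
  have h2 : (1 + X ^ 2) * bil p q a b = (1 + X ^ 2) * (1 + a * b) -
      n * ((1 + X ^ 2) * (1 + a * b) + 2 * ((X - a) * (b - X))) := by
    unfold bil
    linear_combination (-1 + a * b) * hp + (-(a + b)) * hq
  have h3 : 0 < (X - a) * (b - X) := mul_pos (by linarith) (by linarith)
  have h4 : 0 < (1 + X ^ 2) * (1 + a * b) := by positivity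
  have h5 : (1 + X ^ 2) * (1 + a * b) + 2 * ((X - a) * (b - X)) ≤
      n * ((1 + X ^ 2) * (1 + a * b) + 2 * ((X - a) * (b - X))) :=
    le_mul_of_one_le_left (by linarith) hn
  linarith

lemma disc_half {p q : ℝ} (hp : 0 ≤ p) (h : Six (bil p q)) : p ^ 2 + q ^ 2 < 1 := by
  by_contra hcon
  push Not at hcon
  obtain ⟨n, hn⟩ : ∃ n : ℝ, n = Real.sqrt (p ^ 2 + q ^ 2) := ⟨_, rfl⟩
  have hn2 : n ^ 2 = p ^ 2 + q ^ 2 := by
    rw [hn]; exact Real.sq_sqrt (by positivity)
  have hn0 : 0 ≤ n := by rw [hn]; exact Real.sqrt_nonneg _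
  have hn1 : 1 ≤ n := by nlinarith
  have hd : 0 < n + p := by linarith
  obtain ⟨X, hXd⟩ : ∃ X : ℝ, X = q / (n + p) := ⟨_, rfl⟩
  have hXe : X * (n + p) = q := by rw [hXd]; field_simp
  have hX2 : X ^ 2 * (n + p) = n - p := by
    have : X ^ 2 * (n + p) ^ 2 = (n - p) * (n + p) := by
      have : X ^ 2 * (n + p) ^ 2 = (X * (n + p)) ^ 2 := by ring
      rw [this, hXe]; linarith
    have h' : (X ^ 2 * (n + p)) * (n + p) = (n - p) * (n + p) := by linarith
    exact mul_right_cancel₀ hd.ne' h'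
  have e1 : p * (1 + X ^ 2) = n * (1 - X ^ 2) := by linarith
  have e2 : q * (1 + X ^ 2) = 2 * n * X := by
    have h' : q * (1 + X ^ 2) * (n + p) = 2 * n * X * (n + p) := by
      calc q * (1 + X ^ 2) * (n + p) = q * ((n + p) + X ^ 2 * (n + p)) := by ring
        _ = q * (2 * n) := by rw [hX2]; ring
        _ = 2 * n * (X * (n + p)) := by rw [hXe]; ring
        _ = 2 * n * X * (n + p) := by ring
    exact mul_right_cancel₀ hd.ne' h'
  have hqn : q ^ 2 ≤ n ^ 2 := by nlinarith [sq_nonneg p]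
  have hqa : |q| ≤ n := abs_le_of_sq_le_sq hqn hn0
  obtain ⟨q1, q2⟩ := abs_le.mp hqa
  have X1 : -1 ≤ X := by
    rw [hXd, le_div_iff₀ hd]; linarith
  have X2 : X ≤ 1 := by
    rw [hXd, div_le_iff₀ hd]; linarith
  obtain ⟨s1, s2, s3, s4, s5, s6⟩ := h
  by_cases c1 : X < -(71 / 165)
  · exact disc_aux hn1 e1 e2 (by linarith) c1 (by norm_num) s1
  by_cases c2 : X < -(79 / 330)
  · exact disc_aux hn1 e1 e2 (by linarith) c2 (by norm_num) s2
  by_cases c3 : X < 79 / 330
  · exact disc_aux hn1 e1 e2 (by linarith) c3 (by norm_num) s3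
  by_cases c4 : X < 71 / 165
  · exact disc_aux hn1 e1 e2 (by linarith) c4 (by norm_num) s4
  by_cases c5 : X < 10 / 11
  · exact disc_aux hn1 e1 e2 (by linarith) c5 (by norm_num) s5
  exact disc_aux hn1 e1 e2 (a := 71 / 165) (by linarith) (by linarith) (by norm_num) s6

lemma disc_six {p q : ℝ} (h : Six (bil p q) ∧ Six (bil (-p) (-q))) : p ^ 2 + q ^ 2 < 1 := by
  by_cases hp : 0 ≤ p
  · exact disc_half hp h.1
  · have := disc_half (p := -p) (q := -q) (by linarith) h.2
    linarith [neg_sq p, neg_sq q]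

lemma QF_pos {p q : ℝ} (h : p ^ 2 + q ^ 2 < 1) (X : ℝ) : 0 < QF p q X := by
  have hp : -1 < p := by nlinarith [sq_nonneg q]
  have hp' : 0 < 1 + p := by linarith
  have key : (1 + p) * QF p q X = ((1 + p) * X - q) ^ 2 + (1 - (p ^ 2 + q ^ 2)) := by
    unfold QF; ring
  have : 0 < (1 + p) * QF p q X := by
    rw [key]
    have := sq_nonneg ((1 + p) * X - q)
    linarith
  exact (mul_pos_iff_of_pos_left hp').mp this

/-! ### Bounds given by chords -/

lemma F_upper {p q X U : ℝ} (hQ : 0 < QF p q X) (hXU : X < U) (h : 0 ≤ bil p q X U) :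
    F p q X ≤ (1 + X * U) / (U - X) := by
  unfold F
  rw [div_le_div_iff₀ hQ (by linarith)]
  have key : (1 + X * U) * QF p q X - NF p q X * (U - X) = (1 + X ^ 2) * bil p q X U := by
    unfold QF NF bil; ring
  have : 0 ≤ (1 + X ^ 2) * bil p q X U := by positivity
  linarith

lemma F_upper_eq {p q X U : ℝ} (hQ : 0 < QF p q X) (hXU : X < U) (h : bil p q X U = 0) :
    F p q X = (1 + X * U) / (U - X) := by
  unfold F
  rw [div_eq_div_iff hQ.ne' (by linarith)]
  have key : (1 + X * U) * QF p q X - NF p q X * (U - X) = (1 + X ^ 2) * bil p q X U := by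
    unfold QF NF bil; ring
  rw [h] at key
  linarith

lemma F_lower {p q V X : ℝ} (hQ : 0 < QF p q X) (hVX : V < X) (h : 0 ≤ bil p q V X) :
    -((1 + V * X) / (X - V)) ≤ F p q X := by
  unfold F
  rw [← neg_div, div_le_div_iff₀ (by linarith) hQ]
  have key : NF p q X * (X - V) - -(1 + V * X) * QF p q X = (1 + X ^ 2) * bil p q V X := by
    unfold QF NF bil; ring
  have : 0 ≤ (1 + X ^ 2) * bil p q V X := by positivity
  linarith

lemma F_lower_eq {p q V X : ℝ} (hQ : 0 < QF p q X) (hVX : V < X) (h : bil p q V X = 0) :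
    F p q X = -((1 + V * X) / (X - V)) := by
  unfold F
  rw [← neg_div, div_eq_div_iff hQ.ne' (by linarith)]
  have key : NF p q X * (X - V) - -(1 + V * X) * QF p q X = (1 + X ^ 2) * bil p q V X := by
    unfold QF NF bil; ring
  rw [h] at key
  linarith

lemma F_rho (p q X : ℝ) : F p (-q) (-X) = -F p q X := by
  unfold F NF QF
  rw [← neg_div]
  congr 1 <;> ring

lemma F_kap {X : ℝ} (hX : X ≠ 0) (p q : ℝ) : F (-p) q (1 / X) = -F p q X := by
  have e1 : NF (-p) q (1 / X) = -NF p q X / X ^ 2 := by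
    unfold NF; field_simp; ring
  have e2 : QF (-p) q (1 / X) = QF p q X / X ^ 2 := by
    unfold QF; field_simp; ring
  unfold F
  rw [e1, e2, div_div_div_cancel_right₀ (by positivity), neg_div]

/-! ### Extreme values -/

/-- `h` is the largest value of the projection from `X`. -/
def Top (S : ℝ → ℝ → Prop) (X h : ℝ) : Prop :=
  (∀ p q, S p q → F p q X ≤ h) ∧ ∃ p q, S p q ∧ F p q X = h

/-- `l` is the smallest value of the projection from `X`. -/
def Bot (S : ℝ → ℝ → Prop) (X l : ℝ) : Prop :=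
  (∀ p q, S p q → l ≤ F p q X) ∧ ∃ p q, S p q ∧ F p q X = l

lemma top_of_bot_K {X l : ℝ} (h : Bot KK (-X) l) : Top KK X (-l) := by
  obtain ⟨h1, p, q, h2, h3⟩ := h
  constructor
  · intro a b hab
    have := h1 _ _ (KK_rho hab)
    rw [F_rho] at this
    linarith
  · refine ⟨p, -q, KK_rho h2, ?_⟩
    have := F_rho p q (-X)
    rw [neg_neg] at this
    rw [this, h3]

lemma top_of_bot_N {X l : ℝ} (h : Bot NK (-X) l) : Top NK X (-l) := by
  obtain ⟨h1, p, q, h2, h3⟩ := h
  constructor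
  · intro a b hab
    have := h1 _ _ (NK_rho hab)
    rw [F_rho] at this
    linarith
  · refine ⟨p, -q, NK_rho h2, ?_⟩
    have := F_rho p q (-X)
    rw [neg_neg] at this
    rw [this, h3]

lemma bot_of_top_K {X h : ℝ} (hX : X ≠ 0) (ht : Top NK (1 / X) h) : Bot KK X (-h) := by
  obtain ⟨h1, p, q, h2, h3⟩ := ht
  constructor
  · intro a b hab
    have := h1 _ _ (NK_kap hab)
    rw [F_kap hX] at this
    linarith
  · refine ⟨-p, q, KK_kap h2, ?_⟩
    have := F_kap (X := 1 / X) (one_div_ne_zero hX) p q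
    rw [one_div_one_div] at this
    rw [this, h3]

lemma bot_of_top_N {X h : ℝ} (hX : X ≠ 0) (ht : Top KK (1 / X) h) : Bot NK X (-h) := by
  obtain ⟨h1, p, q, h2, h3⟩ := ht
  constructor
  · intro a b hab
    have := h1 _ _ (KK_kap hab)
    rw [F_kap hX] at this
    linarith
  · refine ⟨-p, q, NK_kap h2, ?_⟩
    have := F_kap (X := 1 / X) (one_div_ne_zero hX) p q
    rw [one_div_one_div] at this
    rw [this, h3]

lemma KK_Q {p q : ℝ} (h : KK p q) (X : ℝ) : 0 < QF p q X := QF_pos (disc_six (KK_six h)) X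
lemma NK_Q {p q : ℝ} (h : NK p q) (X : ℝ) : 0 < QF p q X := QF_pos (disc_six (NK_six h)) X

/-! ### Positions in the first interval -/

lemma top_K_I0 {X : ℝ} (h1 : -(11 / 10) ≤ X) (h2 : X ≤ -(10 / 11)) :
    Top KK X (X + (1 + X ^ 2) / (221 / 330)) := by
  have e : X + (1 + X ^ 2) / (221 / 330) =
      (1 + X * (221 / 330 - -X)) / ((221 / 330 - -X) - X) := by
    have : (221 / 330 - -X) - X = 221 / 330 := by ring
    rw [this]; ring
  rw [e]
  constructor
  · intro p q hpq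
    have := (hpq.1 (-X) (by linarith) (by linarith)).1
    rw [neg_neg] at this
    exact F_upper (KK_Q hpq X) (by linarith) this
  · have hm := T0G_mem (x := -X) (by linarith) (by linarith)
    refine ⟨_, _, hm, F_upper_eq (KK_Q hm X) (by linarith) ?_⟩
    have := tbil_zero one_pos one_pos (- -X) (221 / 330 - -X)
    rw [neg_neg] at this ⊢
    exact this

lemma top_N_I0 {X : ℝ} (h1 : -(11 / 10) ≤ X) (h2 : X ≤ -(10 / 11)) :
    Top NK X (X + (1 + X ^ 2) * (-(221 / 110) * X - 1) / (221 / 330 * X ^ 2)) := by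
  obtain ⟨t, ht⟩ : ∃ t : ℝ, t = -(221 / 110) * X - 1 := ⟨_, rfl⟩
  have t1 : 100 / 121 ≤ t := by rw [ht]; linarith
  have t2 : t ≤ 121 / 100 := by rw [ht]; linarith
  have t0 : 0 < t := by linarith
  have hXt : hX t = X := by unfold hX; rw [ht]; ring
  obtain ⟨u1, u2⟩ := hu_rng t1 t2
  have hX0 : X ≠ 0 := by linarith
  have hs : hu t - X = 221 / 330 * X ^ 2 / t := by
    have hXX : X = -(110 * (1 + t) / 221) := by rw [← hXt]; rfl
    rw [hXX]
    unfold hu
    field_simp
    ring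
  have e : X + (1 + X ^ 2) * (-(221 / 110) * X - 1) / (221 / 330 * X ^ 2) =
      (1 + X * hu t) / (hu t - X) := by
    have e1 : 1 + X * hu t = 1 + X ^ 2 + X * (hu t - X) := by ring
    rw [e1, hs, ← ht]
    field_simp
    ring
  rw [e]
  constructor
  · intro p q hpq
    have := (hpq.2 t t1 t2).1
    rw [hXt] at this
    exact F_upper (NK_Q hpq X) (by linarith) this
  · have hm := T0H_mem t1 t2
    refine ⟨_, _, hm, F_upper_eq (NK_Q hm X) (by linarith) ?_⟩
    have := tbil_zero (a := 3) (b := 2 + (1 / t) ^ 2) (by norm_num) (by positivity) (hX t) (hu t)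
    rw [hXt] at this ⊢
    exact this

/-! ### Positions in the second interval -/

lemma exists_hu {X : ℝ} (h1 : -(71 / 165) ≤ X) (h2 : X ≤ -(79 / 330)) :
    ∃ t : ℝ, 100 / 121 ≤ t ∧ t ≤ 121 / 100 ∧ hu t = X := by
  have hc : ContinuousOn hu (Set.Icc (100 / 121) (121 / 100)) := by
    intro t ht
    apply ContinuousAt.continuousWithinAt
    have ht0 : t ≠ 0 := by
      have := ht.1
      intro h0
      rw [h0] at this
      norm_num at this
    unfold hu
    fun_prop (disch := assumption)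
  have ha : hu (100 / 121) = -(79 / 330) := by unfold hu; norm_num
  have hb : hu (121 / 100) = -(71 / 165) := by unfold hu; norm_num
  have hiv := intermediate_value_Icc' (by norm_num : (100 / 121 : ℝ) ≤ 121 / 100) hc
  rw [ha, hb] at hiv
  obtain ⟨t, ht, hte⟩ := hiv ⟨h1, h2⟩
  exact ⟨t, ht.1, ht.2, hte⟩

lemma hL1 {t : ℝ} (ht : 0 < t) : hv t - hu t = 110 * (2 + t + 1 / t) / 663 := by
  unfold hu hv; field_simp; ring

lemma hL0 {t : ℝ} (ht : 0 < t) : hu t - hX t = 110 * (2 + t + 1 / t) / 663 := by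
  unfold hu hX; field_simp; ring

lemma top_K_I1 {X t : ℝ} (t1 : 100 / 121 ≤ t) (t2 : t ≤ 121 / 100) (ht : hu t = X) :
    Top KK X (X + (1 + X ^ 2) / (110 * (2 + t + 1 / t) / 663)) := by
  have t0 : 0 < t := by linarith
  have hL := hL1 t0
  have hLp : 0 < 110 * (2 + t + 1 / t) / 663 := by positivity
  rw [ht] at hL
  have e : X + (1 + X ^ 2) / (110 * (2 + t + 1 / t) / 663) = (1 + X * hv t) / (hv t - X) := by
    rw [← hL] at hLp ⊢
    field_simp
    ring
  rw [e]
  constructor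
  · intro p q hpq
    have := (hpq.2 t t1 t2).2.1
    rw [ht] at this
    exact F_upper (KK_Q hpq X) (by linarith) this
  · have hm := T1H_mem t1 t2
    refine ⟨_, _, hm, F_upper_eq (KK_Q hm X) (by linarith) ?_⟩
    have := tbil_zero (a := 2 + (1 / t) ^ 2) (b := 1 + 2 * (1 / t) ^ 2) (by positivity)
      (by positivity) (hu t) (hv t)
    rw [ht] at this ⊢
    exact this

lemma bot_N_I1 {X t : ℝ} (t1 : 100 / 121 ≤ t) (t2 : t ≤ 121 / 100) (ht : hu t = X) :
    Bot NK X (-((1 + X ^ 2) / (110 * (2 + t + 1 / t) / 663) - X)) := by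
  have t0 : 0 < t := by linarith
  have hL := hL0 t0
  have hLp : 0 < 110 * (2 + t + 1 / t) / 663 := by positivity
  rw [ht] at hL
  have e : (1 + X ^ 2) / (110 * (2 + t + 1 / t) / 663) - X = (1 + hX t * X) / (X - hX t) := by
    rw [← hL] at hLp ⊢
    field_simp
    ring
  rw [e]
  constructor
  · intro p q hpq
    have := (hpq.2 t t1 t2).1
    rw [ht] at this
    exact F_lower (NK_Q hpq X) (by linarith) this
  · have hm := T0H_mem t1 t2
    refine ⟨_, _, hm, F_lower_eq (NK_Q hm X) (by linarith) ?_⟩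
    have := tbil_zero (a := 3) (b := 2 + (1 / t) ^ 2) (by norm_num) (by positivity) (hX t) (hu t)
    rw [ht] at this ⊢
    exact this

lemma top_N_I1 {X : ℝ} (h1 : -(71 / 165) ≤ X) (h2 : X ≤ -(79 / 330)) :
    Top NK X (X + (1 + X ^ 2) / (221 / 330)) := by
  have e : X + (1 + X ^ 2) / (221 / 330) =
      (1 + X * (X + 221 / 330)) / ((X + 221 / 330) - X) := by
    have : (X + 221 / 330) - X = 221 / 330 := by ring
    rw [this]; ring
  rw [e]
  have e1 : 221 / 330 - (221 / 330 - X) = X := by ring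
  have e2 : 221 / 165 - (221 / 330 - X) = X + 221 / 330 := by ring
  constructor
  · intro p q hpq
    have := (hpq.1 (221 / 330 - X) (by linarith) (by linarith)).2.1
    rw [e1, e2] at this
    exact F_upper (NK_Q hpq X) (by linarith) this
  · have hm := T1G_mem (x := 221 / 330 - X) (by linarith) (by linarith)
    refine ⟨_, _, hm, F_upper_eq (NK_Q hm X) (by linarith) ?_⟩
    have := tbil_zero one_pos one_pos (221 / 330 - (221 / 330 - X)) (221 / 165 - (221 / 330 - X))
    rw [e1, e2] at this ⊢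
    exact this

lemma bot_K_I1 {X : ℝ} (h1 : -(71 / 165) ≤ X) (h2 : X ≤ -(79 / 330)) :
    Bot KK X (-((1 + X ^ 2) / (221 / 330) - X)) := by
  have e : (1 + X ^ 2) / (221 / 330) - X =
      (1 + (X - 221 / 330) * X) / (X - (X - 221 / 330)) := by
    have : X - (X - 221 / 330) = 221 / 330 := by ring
    rw [this]; ring
  rw [e]
  have e1 : 221 / 330 - (221 / 330 - X) = X := by ring
  have e2 : -(221 / 330 - X) = X - 221 / 330 := by ring
  constructor
  · intro p q hpq
    have := (hpq.1 (221 / 330 - X) (by linarith) (by linarith)).1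
    rw [e1, e2] at this
    exact F_lower (KK_Q hpq X) (by linarith) this
  · have hm := T0G_mem (x := 221 / 330 - X) (by linarith) (by linarith)
    refine ⟨_, _, hm, F_lower_eq (KK_Q hm X) (by linarith) ?_⟩
    have := tbil_zero one_pos one_pos (-(221 / 330 - X)) (221 / 330 - (221 / 330 - X))
    rw [e1, e2] at this ⊢
    exact this

/-! ### Positions in the gaps -/

lemma jac0 (p q X : ℝ) : NF p0 q0 X * QF p q X - NF p q X * QF p0 q0 X =
    (1 + X ^ 2) * (35937000 / 20078561 *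
      ((X + 71 / 165) * (X - 79 / 330) * bil p q (-(10 / 11)) (-(79 / 330)) -
        (X + 10 / 11) * (X + 79 / 330) * bil p q (-(71 / 165)) (79 / 330))) := by
  unfold NF QF p0 q0 bil; ring

lemma jac5 (p q X : ℝ) : NF 0 q5 X * QF p q X - NF p q X * QF 0 q5 X =
    (1 + X ^ 2) * (9900 / 7979 * ((X + 11 / 10) * (X + 71 / 165) *
        bil (-p) (-q) (71 / 165) (11 / 10)) -
      4686 / 7979 * ((X + 165 / 71) * (X + 10 / 11) * bil p q (-(11 / 10)) (-(71 / 165)))) := by
  unfold NF QF q5 bil; ring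

lemma QF0 (X : ℝ) : 0 < QF p0 q0 X := KK_Q P0_KK X
lemma QF5 (X : ℝ) : 0 < QF 0 q5 X := KK_Q P5_KK X

lemma le_P0 {p q X : ℝ} (h : Six (bil p q) ∧ Six (bil (-p) (-q))) (h1 : -(10 / 11) ≤ X)
    (h2 : X ≤ -(71 / 165)) : F p q X ≤ F p0 q0 X := by
  have hQ := QF_pos (disc_six h) X
  unfold F
  rw [div_le_div_iff₀ hQ (QF0 X)]
  have key := jac0 p q X
  have a1 : 0 ≤ (X + 71 / 165) * (X - 79 / 330) * bil p q (-(10 / 11)) (-(79 / 330)) :=
    mul_nonneg (mul_nonneg_of_nonpos_of_nonpos (by linarith) (by linarith)) h.1.2.1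
  have a2 : (X + 10 / 11) * (X + 79 / 330) * bil p q (-(71 / 165)) (79 / 330) ≤ 0 :=
    mul_nonpos_of_nonpos_of_nonneg
      (mul_nonpos_of_nonneg_of_nonpos (by linarith) (by linarith)) h.1.2.2.1
  have a3 : 0 ≤ (1 + X ^ 2) * (35937000 / 20078561 *
      ((X + 71 / 165) * (X - 79 / 330) * bil p q (-(10 / 11)) (-(79 / 330)) -
        (X + 10 / 11) * (X + 79 / 330) * bil p q (-(71 / 165)) (79 / 330))) := by
    apply mul_nonneg (by positivity)
    apply mul_nonneg (by norm_num)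
    linarith
  linarith

lemma P0_le {p q X : ℝ} (h : Six (bil p q) ∧ Six (bil (-p) (-q))) (h1 : -(79 / 330) ≤ X)
    (h2 : X ≤ 79 / 330) : F p0 q0 X ≤ F p q X := by
  have hQ := QF_pos (disc_six h) X
  unfold F
  rw [div_le_div_iff₀ (QF0 X) hQ]
  have key := jac0 p q X
  have a1 : (X + 71 / 165) * (X - 79 / 330) * bil p q (-(10 / 11)) (-(79 / 330)) ≤ 0 :=
    mul_nonpos_of_nonpos_of_nonneg
      (mul_nonpos_of_nonneg_of_nonpos (by linarith) (by linarith)) h.1.2.1
  have a2 : 0 ≤ (X + 10 / 11) * (X + 79 / 330) * bil p q (-(71 / 165)) (79 / 330) :=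
    mul_nonneg (mul_nonneg (by linarith) (by linarith)) h.1.2.2.1
  have a3 : (1 + X ^ 2) * (35937000 / 20078561 *
      ((X + 71 / 165) * (X - 79 / 330) * bil p q (-(10 / 11)) (-(79 / 330)) -
        (X + 10 / 11) * (X + 79 / 330) * bil p q (-(71 / 165)) (79 / 330))) ≤ 0 := by
    apply mul_nonpos_of_nonneg_of_nonpos (by positivity)
    apply mul_nonpos_of_nonneg_of_nonpos (by norm_num)
    linarith
  linarith

lemma P5_le {p q X : ℝ} (h : Six (bil p q) ∧ Six (bil (-p) (-q))) (h1 : -(10 / 11) ≤ X)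
    (h2 : X ≤ -(71 / 165)) : F 0 q5 X ≤ F p q X := by
  have hQ := QF_pos (disc_six h) X
  unfold F
  rw [div_le_div_iff₀ (QF5 X) hQ]
  have key := jac5 p q X
  have a1 : (X + 11 / 10) * (X + 71 / 165) * bil (-p) (-q) (71 / 165) (11 / 10) ≤ 0 :=
    mul_nonpos_of_nonpos_of_nonneg
      (mul_nonpos_of_nonneg_of_nonpos (by linarith) (by linarith)) h.2.2.2.2.2.2
  have a2 : 0 ≤ (X + 165 / 71) * (X + 10 / 11) * bil p q (-(11 / 10)) (-(71 / 165)) :=
    mul_nonneg (mul_nonneg (by linarith) (by linarith)) h.1.1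
  have a3 : (1 + X ^ 2) * (9900 / 7979 * ((X + 11 / 10) * (X + 71 / 165) *
        bil (-p) (-q) (71 / 165) (11 / 10)) -
      4686 / 7979 * ((X + 165 / 71) * (X + 10 / 11) * bil p q (-(11 / 10)) (-(71 / 165)))) ≤
        0 := by
    apply mul_nonpos_of_nonneg_of_nonpos (by positivity)
    linarith
  linarith

/-! ### The main computation -/

/-- For every position in the fundamental interval the two projections have equal lengths. -/
theorem main_interval {X : ℝ} (h1 : -1 ≤ X) (h2 : X ≤ 0) :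
    ∃ lo hi lo' hi' : ℝ, hi - lo = hi' - lo' ∧ Bot KK X lo ∧ Top KK X hi ∧
      Bot NK X lo' ∧ Top NK X hi' := by
  by_cases c1 : X ≤ -(10 / 11)
  · have hX0 : X ≠ 0 := by linarith
    have i1 : -(11 / 10) ≤ 1 / X := by
      rw [le_div_iff_of_neg (by linarith)]; linarith
    have i2 : 1 / X ≤ -(10 / 11) := by
      rw [div_le_iff_of_neg (by linarith)]; linarith
    refine ⟨_, _, _, _, ?_, bot_of_top_K hX0 (top_N_I0 i1 i2), top_K_I0 (by linarith) c1,
      bot_of_top_N hX0 (top_K_I0 i1 i2), top_N_I0 (by linarith) c1⟩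
    field_simp
    ring
  by_cases c2 : X ≤ -(71 / 165)
  · push Not at c1
    refine ⟨F 0 q5 X, F p0 q0 X, F 0 q5 X, F p0 q0 X, rfl, ⟨?_, _, _, P5_KK, rfl⟩,
      ⟨?_, _, _, P0_KK, rfl⟩, ⟨?_, _, _, P5_NK, rfl⟩, ⟨?_, _, _, P0_NK, rfl⟩⟩
    · intro p q h; exact P5_le (KK_six h) c1.le c2
    · intro p q h; exact le_P0 (KK_six h) c1.le c2
    · intro p q h; exact P5_le (NK_six h) c1.le c2
    · intro p q h; exact le_P0 (NK_six h) c1.le c2
  by_cases c3 : X ≤ -(79 / 330)
  · push Not at c2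
    obtain ⟨t, t1, t2, ht⟩ := exists_hu c2.le c3
    refine ⟨_, _, _, _, ?_, bot_K_I1 c2.le c3, top_K_I1 t1 t2 ht, bot_N_I1 t1 t2 ht,
      top_N_I1 c2.le c3⟩
    ring
  push Not at c3
  have b1 : Bot KK X (F p0 q0 X) :=
    ⟨fun p q h => P0_le (KK_six h) c3.le (by linarith), _, _, P0_KK, rfl⟩
  have b2 : Bot NK X (F p0 q0 X) :=
    ⟨fun p q h => P0_le (NK_six h) c3.le (by linarith), _, _, P0_NK, rfl⟩
  have b3 : Bot KK (-X) (F p0 q0 (-X)) :=
    ⟨fun p q h => P0_le (KK_six h) (by linarith) (by linarith), _, _, P0_KK, rfl⟩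
  have b4 : Bot NK (-X) (F p0 q0 (-X)) :=
    ⟨fun p q h => P0_le (NK_six h) (by linarith) (by linarith), _, _, P0_NK, rfl⟩
  exact ⟨_, _, _, _, rfl, b1, top_of_bot_K b3, b2, top_of_bot_N b4⟩

end Pool.Agent.H42.K39
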