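import Pool.Agent.H42.K39.Core

namespace Pool.Agent.H42.K39

/-! ### Interval estimates for touching points -/

/-- Touching points of chords of the first kind. -/
lemma T0_all {a b X U : ℝ} (ha : 0 < a) (hb1 : 85 / 100 * a ≤ b) (hb2 : b ≤ 12 / 10 * a)
    (hX1 : -(11 / 10) ≤ X) (hX2 : X ≤ -(10 / 11)) (hU1 : -(71 / 165) ≤ U)
    (hU2 : U ≤ -(79 / 330)) :
    (∀ X' U' : ℝ, -(71 / 165) ≤ X' → X' ≤ -(79 / 330) → 79 / 330 ≤ U' → U' ≤ 71 / 165 →
      0 ≤ bil (tp a b X U) (tq a b X U) X' U') ∧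
    (∀ X' U' : ℝ, 79 / 330 ≤ X' → X' ≤ 71 / 165 → 10 / 11 ≤ U' → U' ≤ 11 / 10 →
      0 ≤ bil (tp a b X U) (tq a b X U) X' U') ∧
    (∀ X' U' : ℝ, -(11 / 10) ≤ X' → X' ≤ -(10 / 11) → -(71 / 165) ≤ U' → U' ≤ -(79 / 330) →
      0 ≤ bil (-tp a b X U) (-tq a b X U) X' U') ∧
    (∀ X' U' : ℝ, -(71 / 165) ≤ X' → X' ≤ -(79 / 330) → 79 / 330 ≤ U' → U' ≤ 71 / 165 →
      0 ≤ bil (-tp a b X U) (-tq a b X U) X' U') ∧
    (∀ X' U' : ℝ, 79 / 330 ≤ X' → X' ≤ 71 / 165 → 10 / 11 ≤ U' → U' ≤ 11 / 10 →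
      0 ≤ bil (-tp a b X U) (-tq a b X U) X' U') := by
  have hb : 0 < b := by linarith
  refine ⟨?_, ?_, ?_, ?_, ?_⟩
  · intro X' U' h1 h2 h3 h4
    apply tbil_nonneg ha hb
    have e1 : -(1 / 5) ≤ (X' - U) * (U' - U) := by nlinarith
    have e2 : 1 / 2 ≤ (X' - X) * (U' - X) := by nlinarith
    have e3 : a * (-(1 / 5)) ≤ a * ((X' - U) * (U' - U)) := mul_le_mul_of_nonneg_left e1 ha.le
    have e4 : b * (1 / 2) ≤ b * ((X' - X) * (U' - X)) := mul_le_mul_of_nonneg_left e2 hb.le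
    linarith
  · intro X' U' h1 h2 h3 h4
    apply tbil_nonneg ha hb
    have e1 : 0 ≤ (X' - U) * (U' - U) := mul_nonneg (by linarith) (by linarith)
    have e2 : 0 ≤ (X' - X) * (U' - X) := mul_nonneg (by linarith) (by linarith)
    positivity
  · intro X' U' h1 h2 h3 h4
    apply tneg_nonneg ha hb
    have e1 : 0 ≤ (1 + U * X') * (1 + U * U') := mul_nonneg (by nlinarith) (by nlinarith)
    have e2 : 0 ≤ (1 + X * X') * (1 + X * U') := mul_nonneg (by nlinarith) (by nlinarith)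
    positivity
  · intro X' U' h1 h2 h3 h4
    apply tneg_nonneg ha hb
    have e1 : 0 ≤ (1 + U * X') * (1 + U * U') := mul_nonneg (by nlinarith) (by nlinarith)
    have e2 : 0 ≤ (1 + X * X') * (1 + X * U') := mul_nonneg (by nlinarith) (by nlinarith)
    positivity
  · intro X' U' h1 h2 h3 h4
    apply tneg_nonneg ha hb
    have a1 : 8 / 10 ≤ 1 + U * X' := by nlinarith
    have a2 : 5 / 10 ≤ 1 + U * U' := by nlinarith
    have a3 : 0 ≤ 1 + X * X' := by nlinarith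
    have a4 : 1 + X * X' ≤ 8 / 10 := by nlinarith
    have a5 : -(21 / 100) ≤ 1 + X * U' := by nlinarith
    have e1 : 4 / 10 ≤ (1 + U * X') * (1 + U * U') := by nlinarith
    have e2 : -(17 / 100) ≤ (1 + X * X') * (1 + X * U') := by nlinarith
    have e3 : a * (4 / 10) ≤ a * ((1 + U * X') * (1 + U * U')) :=
      mul_le_mul_of_nonneg_left e1 ha.le
    have e4 : b * (-(17 / 100)) ≤ b * ((1 + X * X') * (1 + X * U')) :=
      mul_le_mul_of_nonneg_left e2 hb.le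
    linarith

/-- Touching points of chords of the second kind. -/
lemma T1_all {a b X U : ℝ} (ha : 0 < a) (hb1 : 85 / 100 * a ≤ b) (hb2 : b ≤ 12 / 10 * a)
    (hX1 : -(71 / 165) ≤ X) (hX2 : X ≤ -(79 / 330)) (hU1 : 79 / 330 ≤ U)
    (hU2 : U ≤ 71 / 165) :
    (∀ X' U' : ℝ, -(11 / 10) ≤ X' → X' ≤ -(10 / 11) → -(71 / 165) ≤ U' → U' ≤ -(79 / 330) →
      0 ≤ bil (tp a b X U) (tq a b X U) X' U') ∧
    (∀ X' U' : ℝ, 79 / 330 ≤ X' → X' ≤ 71 / 165 → 10 / 11 ≤ U' → U' ≤ 11 / 10 →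
      0 ≤ bil (tp a b X U) (tq a b X U) X' U') ∧
    (∀ X' U' : ℝ, -(11 / 10) ≤ X' → X' ≤ -(10 / 11) → -(71 / 165) ≤ U' → U' ≤ -(79 / 330) →
      0 ≤ bil (-tp a b X U) (-tq a b X U) X' U') ∧
    (∀ X' U' : ℝ, -(71 / 165) ≤ X' → X' ≤ -(79 / 330) → 79 / 330 ≤ U' → U' ≤ 71 / 165 →
      0 ≤ bil (-tp a b X U) (-tq a b X U) X' U') ∧
    (∀ X' U' : ℝ, 79 / 330 ≤ X' → X' ≤ 71 / 165 → 10 / 11 ≤ U' → U' ≤ 11 / 10 →
      0 ≤ bil (-tp a b X U) (-tq a b X U) X' U') := by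
  have hb : 0 < b := by linarith
  refine ⟨?_, ?_, ?_, ?_, ?_⟩
  · intro X' U' h1 h2 h3 h4
    apply tbil_nonneg ha hb
    have e1 : 1 / 2 ≤ (X' - U) * (U' - U) := by nlinarith
    have e2 : -(1 / 5) ≤ (X' - X) * (U' - X) := by nlinarith
    have e3 : a * (1 / 2) ≤ a * ((X' - U) * (U' - U)) := mul_le_mul_of_nonneg_left e1 ha.le
    have e4 : b * (-(1 / 5)) ≤ b * ((X' - X) * (U' - X)) := mul_le_mul_of_nonneg_left e2 hb.le
    linarith
  · intro X' U' h1 h2 h3 h4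
    apply tbil_nonneg ha hb
    have e1 : -(1 / 5) ≤ (X' - U) * (U' - U) := by nlinarith
    have e2 : 1 / 2 ≤ (X' - X) * (U' - X) := by nlinarith
    have e3 : a * (-(1 / 5)) ≤ a * ((X' - U) * (U' - U)) := mul_le_mul_of_nonneg_left e1 ha.le
    have e4 : b * (1 / 2) ≤ b * ((X' - X) * (U' - X)) := mul_le_mul_of_nonneg_left e2 hb.le
    linarith
  · intro X' U' h1 h2 h3 h4
    apply tneg_nonneg ha hb
    have e1 : 0 ≤ (1 + U * X') * (1 + U * U') := mul_nonneg (by nlinarith) (by nlinarith)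
    have e2 : 0 ≤ (1 + X * X') * (1 + X * U') := mul_nonneg (by nlinarith) (by nlinarith)
    positivity
  · intro X' U' h1 h2 h3 h4
    apply tneg_nonneg ha hb
    have e1 : 0 ≤ (1 + U * X') * (1 + U * U') := mul_nonneg (by nlinarith) (by nlinarith)
    have e2 : 0 ≤ (1 + X * X') * (1 + X * U') := mul_nonneg (by nlinarith) (by nlinarith)
    positivity
  · intro X' U' h1 h2 h3 h4
    apply tneg_nonneg ha hb
    have e1 : 0 ≤ (1 + U * X') * (1 + U * U') := mul_nonneg (by nlinarith) (by nlinarith)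
    have e2 : 0 ≤ (1 + X * X') * (1 + X * U') := mul_nonneg (by nlinarith) (by nlinarith)
    positivity

/-! ### Membership of the touching points -/

/-- Touching point of the `G` chord of the first kind. -/
lemma T0G_mem {x : ℝ} (h1 : 10 / 11 ≤ x) (h2 : x ≤ 11 / 10) :
    KK (tp 1 1 (-x) (221 / 330 - x)) (tq 1 1 (-x) (221 / 330 - x)) := by
  obtain ⟨f1, f2, g0, g1, g2⟩ := T0_all (a := 1) (b := 1) (X := -x) (U := 221 / 330 - x)
    one_pos (by norm_num) (by norm_num) (by linarith) (by linarith) (by linarith) (by linarith)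
  constructor
  · intro s hs1 hs2
    refine ⟨?_, g1 _ _ (by linarith) (by linarith) (by linarith) (by linarith),
      f2 _ _ (by linarith) (by linarith) (by linarith) (by linarith)⟩
    apply tbil_nonneg one_pos one_pos
    nlinarith [sq_nonneg (x - s)]
  · intro t ht1 ht2
    obtain ⟨a1, a2⟩ := hX_rng ht1 ht2
    obtain ⟨b1, b2⟩ := hu_rng ht1 ht2
    obtain ⟨c1, c2⟩ := hv_rng ht1 ht2
    obtain ⟨d1, d2⟩ := hy_rng ht1 ht2
    exact ⟨g0 _ _ a1 a2 b1 b2, f1 _ _ b1 b2 c1 c2, g2 _ _ c1 c2 d1 d2⟩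

/-- Touching point of the `G` chord of the second kind. -/
lemma T1G_mem {x : ℝ} (h1 : 10 / 11 ≤ x) (h2 : x ≤ 11 / 10) :
    NK (tp 1 1 (221 / 330 - x) (221 / 165 - x)) (tq 1 1 (221 / 330 - x) (221 / 165 - x)) := by
  obtain ⟨f0, f2, g0, g1, g2⟩ := T1_all (a := 1) (b := 1) (X := 221 / 330 - x)
    (U := 221 / 165 - x)
    one_pos (by norm_num) (by norm_num) (by linarith) (by linarith) (by linarith) (by linarith)
  constructor
  · intro s hs1 hs2
    refine ⟨g0 _ _ (by linarith) (by linarith) (by linarith) (by linarith), ?_,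
      g2 _ _ (by linarith) (by linarith) (by linarith) (by linarith)⟩
    apply tbil_nonneg one_pos one_pos
    nlinarith [sq_nonneg (x - s)]
  · intro t ht1 ht2
    obtain ⟨a1, a2⟩ := hX_rng ht1 ht2
    obtain ⟨b1, b2⟩ := hu_rng ht1 ht2
    obtain ⟨c1, c2⟩ := hv_rng ht1 ht2
    obtain ⟨d1, d2⟩ := hy_rng ht1 ht2
    exact ⟨f0 _ _ a1 a2 b1 b2, g1 _ _ b1 b2 c1 c2, f2 _ _ c1 c2 d1 d2⟩

/-- Touching point of the `H` chord of the first kind. -/
lemma T0H_mem {t : ℝ} (h1 : 100 / 121 ≤ t) (h2 : t ≤ 121 / 100) :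
    NK (tp 3 (2 + (1 / t) ^ 2) (hX t) (hu t)) (tq 3 (2 + (1 / t) ^ 2) (hX t) (hu t)) := by
  have ht : 0 < t := by linarith
  obtain ⟨a1, a2⟩ := hX_rng h1 h2
  obtain ⟨b1, b2⟩ := hu_rng h1 h2
  obtain ⟨i1, i2⟩ := inv_rng h1 h2
  obtain ⟨f1, f2, g0, g1, g2⟩ := T0_all (a := 3) (b := 2 + (1 / t) ^ 2) (X := hX t) (U := hu t)
    (by norm_num) (by nlinarith) (by nlinarith) a1 a2 b1 b2
  constructor
  · intro s hs1 hs2
    exact ⟨g0 _ _ (by linarith) (by linarith) (by linarith) (by linarith),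
      f1 _ _ (by linarith) (by linarith) (by linarith) (by linarith),
      g2 _ _ (by linarith) (by linarith) (by linarith) (by linarith)⟩
  · intro s hs1 hs2
    have hs : 0 < s := by linarith
    obtain ⟨a1', a2'⟩ := hX_rng hs1 hs2
    obtain ⟨b1', b2'⟩ := hu_rng hs1 hs2
    obtain ⟨c1, c2⟩ := hv_rng hs1 hs2
    obtain ⟨d1, d2⟩ := hy_rng hs1 hs2
    refine ⟨?_, g1 _ _ b1' b2' c1 c2, f2 _ _ c1 c2 d1 d2⟩
    apply tbil_nonneg (by norm_num) (by positivity)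
    obtain ⟨j1, j2⟩ := inv_rng hs1 hs2
    have key : 3 * ((hX s - hu t) * (hu s - hu t)) +
        (2 + (1 / t) ^ 2) * ((hX s - hX t) * (hu s - hX t)) =
        (110 / 663) ^ 2 * (3 * ((t - s) ^ 2 * (10 + 4 * ((1 / t) * (1 / s)) +
          2 * (1 / t) ^ 2 * (1 - 1 / s)))) := by
      unfold hX hu
      field_simp
      ring
    rw [key]
    have : 0 ≤ 10 + 4 * ((1 / t) * (1 / s)) + 2 * (1 / t) ^ 2 * (1 - 1 / s) := by
      have e1 : 0 ≤ (1 / t) * (1 / s) := by positivity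
      have e2 : (1 / t) ^ 2 ≤ 2 := by nlinarith
      have e3 : 0 ≤ (1 / t) ^ 2 := by positivity
      nlinarith
    positivity

/-- Touching point of the `H` chord of the second kind. -/
lemma T1H_mem {t : ℝ} (h1 : 100 / 121 ≤ t) (h2 : t ≤ 121 / 100) :
    KK (tp (2 + (1 / t) ^ 2) (1 + 2 * (1 / t) ^ 2) (hu t) (hv t))
      (tq (2 + (1 / t) ^ 2) (1 + 2 * (1 / t) ^ 2) (hu t) (hv t)) := by
  have ht : 0 < t := by linarith
  obtain ⟨a1, a2⟩ := hu_rng h1 h2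
  obtain ⟨b1, b2⟩ := hv_rng h1 h2
  obtain ⟨i1, i2⟩ := inv_rng h1 h2
  obtain ⟨f0, f2, g0, g1, g2⟩ := T1_all (a := 2 + (1 / t) ^ 2) (b := 1 + 2 * (1 / t) ^ 2)
    (X := hu t) (U := hv t)
    (by positivity) (by nlinarith) (by nlinarith) a1 a2 b1 b2
  constructor
  · intro s hs1 hs2
    exact ⟨f0 _ _ (by linarith) (by linarith) (by linarith) (by linarith),
      g1 _ _ (by linarith) (by linarith) (by linarith) (by linarith),
      f2 _ _ (by linarith) (by linarith) (by linarith) (by linarith)⟩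
  · intro s hs1 hs2
    have hs : 0 < s := by linarith
    obtain ⟨a1', a2'⟩ := hX_rng hs1 hs2
    obtain ⟨b1', b2'⟩ := hu_rng hs1 hs2
    obtain ⟨c1, c2⟩ := hv_rng hs1 hs2
    obtain ⟨d1, d2⟩ := hy_rng hs1 hs2
    refine ⟨g0 _ _ a1' a2' b1' b2', ?_, g2 _ _ c1 c2 d1 d2⟩
    apply tbil_nonneg (by positivity) (by positivity)
    obtain ⟨j1, j2⟩ := inv_rng hs1 hs2
    have key : (2 + (1 / t) ^ 2) * ((hu s - hv t) * (hv s - hv t)) +
        (1 + 2 * (1 / t) ^ 2) * ((hu s - hu t) * (hv s - hu t)) =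
        (110 / 663) ^ 2 * (6 * ((t - s) ^ 2 * (1 + 2 * ((1 / t) * (1 / s)) +
          ((1 / t) * (1 / s)) ^ 2 + (1 / t) ^ 2 + 2 * (1 / t) ^ 3 * (1 / s) +
          (1 / t) ^ 4 * (1 / s) ^ 2 - (1 / t) ^ 2 * (1 / s)))) := by
      unfold hu hv
      field_simp
      ring
    rw [key]
    have : 0 ≤ 1 + 2 * ((1 / t) * (1 / s)) +
          ((1 / t) * (1 / s)) ^ 2 + (1 / t) ^ 2 + 2 * (1 / t) ^ 3 * (1 / s) +
          (1 / t) ^ 4 * (1 / s) ^ 2 - (1 / t) ^ 2 * (1 / s) := by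
      have e1 : 0 ≤ (1 / t) * (1 / s) := by positivity
      have e2 : (1 / t) ^ 2 * (1 / s) ≤ 2 * ((1 / t) * (1 / s)) := by
        have : (1 / t) ^ 2 * (1 / s) = (1 / t) * ((1 / t) * (1 / s)) := by ring
        rw [this]
        exact mul_le_mul_of_nonneg_right (by linarith) e1
      have e3 : 0 ≤ ((1 / t) * (1 / s)) ^ 2 + (1 / t) ^ 2 + 2 * (1 / t) ^ 3 * (1 / s) +
          (1 / t) ^ 4 * (1 / s) ^ 2 := by positivity
      linarith
    positivity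

end Pool.Agent.H42.K39
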